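import Pool.Agent.R461.HM.Pow3
import Pool.Agent.R461.HM.Dil2

set_option autoImplicit false

/-!
# MP_973905_nt: the moments of zeta along the dilates of separated sequences

Let `A i`, `i ≥ i₀`, be finite sets of reals in `[2^i, 2^(i+1)]` with at least `2^(κ i)` elements, any two of them at distance
at least `1`: blocks of any polynomially dense sequence of integers (squares, primes, ...) or reals. For almost every `h > 0`
the moments of all even orders of zeta at the heights `h a`, `a ∈ A i`, behave as `i → ∞` like those on intervals: the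
band-limited averages of the shifted moments tend to the limit predicted by the recipe, and the powers of the local mean
squares have means of at least the order `(log T)^(k²)`.
-/

namespace Pool.Agent.Results.MP_973905_nt.DilatedSequences

open Complex MeasureTheory Filter Topology Set
open scoped ContDiff ENNReal

noncomputable section

/-- blocks of `1`-separated reals in `[2^i, 2^(i+1)]` with at least `2^(κ i)` elements, `i ≥ i₀` -/
structure Blocks (κ : ℝ) (i₀ : ℕ) (A : ℕ → Finset ℝ) : Prop where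
  mem : ∀ i, i₀ ≤ i → ∀ a ∈ A i, a ∈ Icc ((2:ℝ) ^ i) (2 * 2 ^ i)
  sep : ∀ i, i₀ ≤ i → ∀ a ∈ A i, ∀ a' ∈ A i, a ≠ a' → 1 ≤ |a - a'|
  card : ∀ i, i₀ ≤ i → (2:ℝ) ^ (κ * i) ≤ (A i).card

/-- the arithmetic factor `a_k` -/
def ak (k : ℕ) : ℝ :=
  ∏' p : Nat.Primes, ((1 - 1 / (p : ℝ)) ^ (k ^ 2) * ∑' m : ℕ, ((m + k - 1).choose m : ℝ) ^ 2 * (1 / (p : ℝ)) ^ m)

/-- `φ(α) = ∫ ψ(v) e^{ivα} dv` -/
def phi (ψ : ℝ → ℂ) (α : ℝ) : ℂ := ∫ v : ℝ, ψ v * exp (I * v * α)

/-- the shifted `2k`-th moment over the heights `h a`, `a ∈ A`, normalised with `L = log T` -/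
def Q (k : ℕ) (A : Finset ℝ) (h L α : ℝ) : ℂ :=
  ((L : ℂ) ^ (k ^ 2))⁻¹ * ((A.card : ℂ)⁻¹ * ∑ a ∈ A, riemannZeta (1 / 2 + I * α / L + I * (h * a)) ^ k *
    riemannZeta (1 / 2 + I * α / L - I * (h * a)) ^ k)

/-- the weighted mean of `|ζ(1/2 + i(t + u))|²` over `u` at the scale `1 / L` -/
def localSq (N : ℕ) (L t : ℝ) : ℝ≥0∞ :=
  ∫⁻ u : ℝ, ENNReal.ofReal (‖riemannZeta (1 / 2 + I * (t + u))‖ ^ 2 * (L / (1 + L * |u|) ^ N))

lemma Blocks.to {κ : ℝ} {i₀ : ℕ} {A : ℕ → Finset ℝ} (hA : Blocks κ i₀ A) : R461.HM.Blocks κ i₀ A :=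
  ⟨hA.mem, hA.sep, hA.card⟩

lemma phi_eq (ψ : ℝ → ℂ) (α : ℝ) : phi ψ α = W182.KO.P ψ (α * I) := by
  unfold phi W182.KO.P
  congr 1; funext v
  congr 2
  ring

lemma Q_eq (k : ℕ) (A : Finset ℝ) (h α T : ℝ) : Q k A h (Real.log T) α = R461.HM.Qn k (R461.HM.uF A h) α T := by
  unfold Q R461.HM.Qn
  rw [R461.HM.integral_uF]
  push_cast
  rfl

lemma localSq_eq (N : ℕ) (T t : ℝ) : localSq N (Real.log T) t = R461.HM.loc 1 N T t := by
  unfold localSq R461.HM.loc
  simp only [mul_one]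

lemma log_tendsto {h : ℝ} (hh : 0 < h) : Tendsto (fun i : ℕ => h * 2 ^ i) atTop atTop :=
  (tendsto_pow_atTop_atTop_of_one_lt (by norm_num : (1:ℝ) < 2)).const_mul_atTop hh

/-- Let `κ > 0`. (1) For all blocks `A` and almost every `h > 0`: for all `k ≥ 1` and all smooth `ψ` with compact support
vanishing above `κ/20` the integrals of `φ Q`, `L = log (h 2^i)`, converge for large `i` and tend to
`2 π a_k ∫_0^∞ u^(k²-1)/(k²-1)! ψ(2u) du`. (2) For all `q ≥ 1`, `N` there is `c > 0` such that for all blocks `A` and almost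
every `h > 0` the mean of the `q`-th powers of the local mean squares of zeta at the heights `h a`, `a ∈ A i`, is at least
`c (log (h 2^i))^(q²)` for large `i`. -/
theorem result (κ : ℝ) (hκ : 0 < κ) :
    (∀ (i₀ : ℕ) (A : ℕ → Finset ℝ), Blocks κ i₀ A → ∀ᵐ h : ℝ, 0 < h → ∀ k : ℕ, 1 ≤ k → ∀ ψ : ℝ → ℂ, ContDiff ℝ ∞ ψ →
      HasCompactSupport ψ → (∀ ξ : ℝ, κ / 20 < ξ → ψ ξ = 0) →
      (∀ᶠ i : ℕ in atTop, Integrable (fun α : ℝ => phi ψ α * Q k (A i) h (Real.log (h * 2 ^ i)) α)) ∧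
      Tendsto (fun i : ℕ => ∫ α : ℝ, phi ψ α * Q k (A i) h (Real.log (h * 2 ^ i)) α) atTop
        (𝓝 (2 * Real.pi * ak k * ∫ u in Set.Ioi (0:ℝ), (u : ℂ) ^ (k ^ 2 - 1) / (k ^ 2 - 1).factorial * ψ (2 * u)))) ∧
    (∀ q : ℕ, 1 ≤ q → ∀ N : ℕ, ∃ c : ℝ, 0 < c ∧ ∀ (i₀ : ℕ) (A : ℕ → Finset ℝ), Blocks κ i₀ A → ∀ᵐ h : ℝ, 0 < h →
      ∀ᶠ i : ℕ in atTop, ENNReal.ofReal (c * Real.log (h * 2 ^ i) ^ (q ^ 2)) ≤
        ((A i).card : ℝ≥0∞)⁻¹ * ∑ a ∈ A i, localSq N (Real.log (h * 2 ^ i)) (h * a) ^ q) := by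
  constructor
  · intro i₀ A hA
    filter_upwards [R461.HM.dil_heights hκ hA.to] with h hh hpos k hk ψ hψ hc hs
    obtain ⟨i₁, hi₁⟩ := hh hpos
    have hmain : ∀ η : ℝ, 0 < η → ∀ᶠ i : ℕ in atTop,
        Integrable (fun α : ℝ => phi ψ α * Q k (A i) h (Real.log (h * 2 ^ i)) α) ∧
        ‖(∫ α : ℝ, phi ψ α * Q k (A i) h (Real.log (h * 2 ^ i)) α) -
          2 * Real.pi * ak k * ∫ u in Set.Ioi (0:ℝ), (u : ℂ) ^ (k ^ 2 - 1) / (k ^ 2 - 1).factorial * ψ (2 * u)‖ ≤ η := by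
      intro η hη
      obtain ⟨T₀, hT₀, hl⟩ := R461.HM.limit_form (θ := κ / 40) (θ' := κ / 20) (by positivity) (by linarith) hψ hc
        (fun ξ hξ => hs ξ (by linarith)) hk η hη
      filter_upwards [eventually_ge_atTop i₁, (log_tendsto hpos).eventually_ge_atTop T₀] with i h1 h2
      have h3 := hl (h * 2 ^ i) h2 (R461.HM.uF (A i) h) (by
        have e : (2 * (κ / 40) : ℝ) = κ / 20 := by ring
        rw [e]
        exact hi₁ i h1)
      simp only [phi_eq, Q_eq]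
      exact h3
    refine ⟨(hmain 1 one_pos).mono fun i hi => hi.1, ?_⟩
    rw [Metric.tendsto_nhds]
    intro ε hε
    filter_upwards [hmain (ε / 2) (by positivity)] with i hi
    rw [dist_eq_norm]
    exact hi.2.trans_lt (by linarith)
  · intro q hq N
    obtain ⟨c, T₀, hc, hT₀, hlow⟩ := R461.HM.pow_main hq N (κ := κ / 20) (by positivity)
    refine ⟨c, hc, fun i₀ A hA => ?_⟩
    filter_upwards [R461.HM.dil_heights hκ hA.to] with h hh hpos
    obtain ⟨i₁, hi₁⟩ := hh hpos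
    filter_upwards [eventually_ge_atTop i₁, (log_tendsto hpos).eventually_ge_atTop T₀] with i h1 h2
    have hν := hi₁ i h1
    have hT0 : 0 < h * 2 ^ i := by positivity
    have hL : 1 ≤ Real.log (h * 2 ^ i) := by
      rw [Real.le_log_iff_exp_le hT0]
      exact hT₀.trans h2
    have h3 := hlow (h * 2 ^ i) h2 _ hν.prob (by
      filter_upwards [hν.supp] with t ht
      exact ⟨by linarith [ht.1], by linarith [ht.2]⟩) hν.small
    rw [R461.HM.lintegral_uF ((R461.HM.loc_meas 1 N (by linarith)).pow_const q)] at h3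
    simp only [localSq_eq]
    exact h3

end

end Pool.Agent.Results.MP_973905_nt.DilatedSequences
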