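import Pool.Agent.R313.CX.X

set_option autoImplicit false

/-!
# MP_973905_nt: zeta near the critical line as a random analytic function under the moment measures

Let `δ(T) → 0` with `δ(T) log T → ∞`, let `0 < k ≤ 2` be real and let `K` be a compact subset of the half plane
`Re w > 0`. For every continuous functional `Φ` on the space `C(K, ℂ)` of continuous functions on `K` (with the topology
of uniform convergence) such that `Φ(u f) = |u|^(2k) Φ(f)` for all complex `u`,
`(2δ)^(k²) (1/T) ∫_0^T Φ(w ↦ ζ(1/2 + it + δ w)) dt  →  a(k) E Φ(e^G)`,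
where `G(w) = - k log ((1 + w)/2) + ∑_{m ≥ 1} ((w - 1)/(w + 1))^m g_m / √m` with independent standard complex normal
variables `g_1, g_2, ...`, a random analytic function on `Re w > 0`.
-/

open Filter Topology MeasureTheory ProbabilityTheory

namespace Pool.Agent.Results.MP_973905_nt.FieldLimit

/-- the arithmetic factor of the moment conjecture for `|ζ|^(2k)` -/
noncomputable def ak (k : ℝ) : ℝ :=
  ∏' p : Nat.Primes, ((1 - 1 / (p : ℝ)) ^ (k ^ 2) *
    ∑' m : ℕ, (Real.Gamma (k + m) / (Real.Gamma k * (m.factorial : ℝ))) ^ 2 / (p : ℝ) ^ m)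

/-- the law of a sequence of independent pairs of independent standard real normal variables -/
noncomputable def seqLaw : Measure (ℕ → ℝ × ℝ) := Measure.infinitePi fun _ : ℕ => (gaussianReal 0 1).prod (gaussianReal 0 1)

/-- a standard complex normal variable, as a function of two independent standard real normal variables -/
noncomputable def gau (x : ℝ × ℝ) : ℂ := ((x.1 : ℂ) + Complex.I * (x.2 : ℂ)) / (Real.sqrt 2 : ℂ)

/-- the random analytic function -/
noncomputable def field (k : ℝ) (ω : ℕ → ℝ × ℝ) (w : ℂ) : ℂ :=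
  -(k * Complex.log ((1 + w) / 2)) + ∑' m : ℕ, ((w - 1) / (w + 1)) ^ (m + 1) * gau (ω m) / (Real.sqrt ((m : ℝ) + 1) : ℂ)

open Classical in
/-- the restriction of a function to `K`, as an element of `C(K, ℂ)` (zero if this restriction is not continuous) -/
noncomputable def onK (K : Set ℂ) (f : ℂ → ℂ) : C(K, ℂ) := if h : Continuous (fun w : K => f w) then ⟨_, h⟩ else 0

theorem result (δ : ℝ → ℝ) (hδ : Tendsto δ atTop (𝓝 0)) (hδL : Tendsto (fun T : ℝ => δ T * Real.log T) atTop atTop)
    (k : ℝ) (hk : 0 < k) (hk2 : k ≤ 2) (K : Set ℂ) (hK : IsCompact K) (hKre : ∀ w ∈ K, 0 < w.re) :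
    0 < ak k ∧
    -- almost surely the series converges absolutely and the field is analytic at every point of the half plane
    (∀ᵐ ω ∂seqLaw, ∀ w : ℂ, 0 < w.re →
      Summable (fun m : ℕ => ‖((w - 1) / (w + 1)) ^ (m + 1) * gau (ω m) / (Real.sqrt ((m : ℝ) + 1) : ℂ)‖) ∧
      DifferentiableAt ℂ (field k ω) w) ∧
    -- for large `T` the functions of `w` are continuous on `K`
    (∀ᶠ T in atTop, ∀ t : ℝ, ContinuousOn (fun w => riemannZeta (1 / 2 + t * Complex.I + δ T * w)) K) ∧
    ∀ Φ : C(K, ℂ) → ℂ, Continuous Φ → (∀ (u : ℂ) (f : C(K, ℂ)), Φ (u • f) = ((‖u‖ ^ (2 * k) : ℝ) : ℂ) * Φ f) →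
      Integrable (fun ω => Φ (onK K (fun w => Complex.exp (field k ω w)))) seqLaw ∧
      Tendsto (fun T : ℝ => (((2 * δ T) ^ (k ^ 2) / T : ℝ) : ℂ) *
          ∫ t in Set.Icc 0 T, Φ (onK K (fun w => riemannZeta (1 / 2 + t * Complex.I + δ T * w)))) atTop
        (𝓝 ((ak k : ℂ) * ∫ ω, Φ (onK K (fun w => Complex.exp (field k ω w))) ∂seqLaw)) := by
  have e1 : ∀ m : ℕ, Real.Gamma (k + m) / (Real.Gamma k * (m.factorial : ℝ)) = Pool.Agent.H306R2.lc k m := by
    intro m
    have hG : Real.Gamma k ≠ 0 := (Real.Gamma_pos_of_pos hk).ne'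
    induction m with
    | zero =>
      unfold Pool.Agent.H306R2.lc
      simp [hG]
    | succ m ih =>
      have h1 : Pool.Agent.H306R2.lc k (m + 1) = Pool.Agent.H306R2.lc k m * ((k + m) / ((m : ℝ) + 1)) := by
        unfold Pool.Agent.H306R2.lc
        rw [Finset.prod_range_succ]
      have hkm : k + (m : ℝ) ≠ 0 := by positivity
      have h2 : Real.Gamma (k + ((m + 1 : ℕ) : ℝ)) = (k + m) * Real.Gamma (k + m) := by
        rw [← Real.Gamma_add_one hkm]
        congr 1
        push_cast
        ring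
      have hf : (m.factorial : ℝ) ≠ 0 := by positivity
      rw [h1, ← ih, h2, Nat.factorial_succ]
      push_cast
      field_simp
  have e3 : ak k = Pool.Agent.H306R2.aF k := by
    unfold ak Pool.Agent.H306R2.aF
    refine tprod_congr fun p => ?_
    simp_rw [e1, one_div, inv_pow, div_eq_mul_inv]
  obtain ⟨h1, h2⟩ := Pool.Agent.R313.CX.comp_lim hδ hδL hk hk2 hK hKre
  rw [e3]
  exact ⟨Pool.Agent.H306R2.aF_pos hk, Pool.Agent.R313.CX.fld_good k, h1, h2⟩

end Pool.Agent.Results.MP_973905_nt.FieldLimit
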