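import Pool.Agent.R311.SE.R7

set_option autoImplicit false

/-!
Discrete moments of the zeta function over the points of the critical line at which its value lies
on a given ray `u (0, ∞)`: lower bounds of the conjectured order `H (log T)^(q²/4 + 1)` for every
integer `q ≥ 2`, uniformly in the direction `u`, in all ranges `[T, T + H]`, `T ^ ε ≤ H ≤ T`.
-/

namespace Pool.Agent.Results.MP_973905_nt.RayMoments

open Filter

theorem result (q : ℕ) (hq : 2 ≤ q) (ε : ℝ) (hε : 0 < ε) :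
    ∃ c : ℝ, 0 < c ∧ ∀ᶠ T : ℝ in atTop, ∀ H : ℝ, T ^ ε ≤ H → H ≤ T → ∀ u : ℂ, ‖u‖ = 1 →
      {t : ℝ | T ≤ t ∧ t ≤ T + H ∧
        ∃ r : ℝ, 0 < r ∧ riemannZeta (1 / 2 + (t : ℂ) * Complex.I) = r * u}.Finite ∧
      c * H * Real.log T ^ ((q:ℝ) ^ 2 / 4 + 1) ≤
        ∑ᶠ t ∈ {t : ℝ | T ≤ t ∧ t ≤ T + H ∧
            ∃ r : ℝ, 0 < r ∧ riemannZeta (1 / 2 + (t : ℂ) * Complex.I) = r * u},
          ‖riemannZeta (1 / 2 + (t : ℂ) * Complex.I)‖ ^ q :=
  Pool.Agent.R311.SE.main_ray q hq ε hε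

end Pool.Agent.Results.MP_973905_nt.RayMoments
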